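import Mathlib

/-!
Filters on `ℕ` and the families of their positive sets as subspaces of the Cantor space.
-/

namespace Pool.Agent.R603.PosF

open Filter Set

/-- The filter `F` as a subset of the Cantor space `ℕ → Bool` (sets are identified with their
characteristic functions). -/
def carrier (F : Filter ℕ) : Set (ℕ → Bool) := {x | {n | x n = true} ∈ F}

/-- The positive sets of `F` as a subset of the Cantor space. -/
def pos (F : Filter ℕ) : Set (ℕ → Bool) :=
  {x | ∀ B ∈ F, ({n | x n = true} ∩ B).Nonempty}

/-- `F` is a filter on `ω` in the sense of the problem: it is proper and contains the cofinite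
sets. -/
def IsFilterOnOmega (F : Filter ℕ) : Prop := F.NeBot ∧ F ≤ cofinite

/-- `F` is non-meager. -/
def NonMeager (F : Filter ℕ) : Prop := ¬ IsMeagre (carrier F)

end Pool.Agent.R603.PosF
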