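import Mathlib

/-!
An independent family of subsets of `ℕ` indexed by the Cantor space, and Kunen's lemma.
-/

namespace Pool.Agent.R603.PosF

open Filter Set Cardinal

/-- The index set. -/
abbrev I : Type := ℕ → Bool

/-- The countable set carrying the independent family. -/
abbrev Dom : Type := Σ n : ℕ, Finset (Fin n → Bool)

/-- The independent family. -/
noncomputable def A (x : I) : Set ℕ :=
  {k | ∃ p : Dom, Encodable.encode p = k ∧ (fun i : Fin p.1 => x i) ∈ p.2}

/-- The Boolean cells. -/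
def cell (S T : Finset I) : Set ℕ := {n | (∀ i ∈ S, n ∈ A i) ∧ ∀ i ∈ T, n ∉ A i}

theorem exists_sep_level (S T : Finset I) (h : Disjoint S T) :
    ∃ N : ℕ, ∀ n, N ≤ n → ∀ x ∈ S, ∀ y ∈ T, (fun i : Fin n => x i) ≠ (fun i : Fin n => y i) := by
  classical
  have h1 : ∀ x ∈ S, ∀ y ∈ T, ∃ m : ℕ, x m ≠ y m := by
    intro x hx y hy
    by_contra hcon
    push Not at hcon
    have : x = y := funext hcon
    exact Finset.disjoint_left.1 h hx (this ▸ hy)
  choose! m hm using h1
  refine ⟨(S ×ˢ T).sup (fun p => m p.1 p.2) + 1, fun n hn x hx y hy hxy => ?_⟩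
  have h2 : m x y ≤ (S ×ˢ T).sup (fun p => m p.1 p.2) :=
    Finset.le_sup (f := fun p : I × I => m p.1 p.2) (b := (x, y)) (Finset.mem_product.2 ⟨hx, hy⟩)
  exact hm x hx y hy (congrFun hxy ⟨m x y, by omega⟩)

theorem cell_infinite (S T : Finset I) (h : Disjoint S T) : (cell S T).Infinite := by
  classical
  obtain ⟨N, hN⟩ := exists_sep_level S T h
  let f : ℕ → ℕ := fun n => Encodable.encode
    (⟨N + n, S.image (fun x => fun i : Fin (N + n) => x i)⟩ : Dom)
  have hf : Function.Injective f := by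
    intro a b hab
    have h1 := Encodable.encode_injective hab
    have h2 := congrArg Sigma.fst h1
    simp only at h2
    omega
  refine (Set.infinite_range_of_injective hf).mono ?_
  rintro _ ⟨n, rfl⟩
  refine ⟨fun x hx => ⟨_, rfl, ?_⟩, ?_⟩
  · exact Finset.mem_image.2 ⟨x, hx, rfl⟩
  · rintro y hy ⟨p, hp, hpy⟩
    have h1 := Encodable.encode_injective hp
    subst h1
    obtain ⟨x, hx, hxy⟩ := Finset.mem_image.1 hpy
    exact hN (N + n) (Nat.le_add_right _ _) x hx y hy hxy

/-- The family off `K` is independent modulo the filter `G`. -/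
def Ind (G : Filter ℕ) (K : Set I) : Prop :=
  ∀ S T : Finset I, Disjoint S T → (∀ i ∈ S, i ∉ K) → (∀ i ∈ T, i ∉ K) →
    (G ⊓ 𝓟 (cell S T)).NeBot

theorem Ind.mono {G : Filter ℕ} {K K' : Set I} (h : Ind G K) (hK : K ⊆ K') : Ind G K' :=
  fun S T hST hS hT => h S T hST (fun i hi hiK => hS i hi (hK hiK))
    (fun i hi hiK => hT i hi (hK hiK))

theorem ind_cofinite (K : Set I) : Ind cofinite K :=
  fun S T hST _ _ => (cell_infinite S T hST).cofinite_inf_principal_neBot

/-- a set or its complement -/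
def sgn (B : Set ℕ) (ε : Bool) : Set ℕ := if ε then B else Bᶜ

theorem mem_sgn_iff (U : Ultrafilter ℕ) (B : Set ℕ) (ε : Bool) :
    sgn B ε ∈ U ↔ (B ∈ U ↔ ε = true) := by
  cases ε
  · simp [sgn, Ultrafilter.compl_mem_iff_notMem]
  · simp [sgn]

theorem Ind.add_sgn {G : Filter ℕ} {K : Set I} (h : Ind G K) (i : I) (hi : i ∉ K) (ε : Bool) :
    Ind (G ⊓ 𝓟 (sgn (A i) ε)) (insert i K) := by
  classical
  intro S T hST hS hT
  have hiS : i ∉ S := fun h => hS i h (Set.mem_insert _ _)
  have hiT : i ∉ T := fun h => hT i h (Set.mem_insert _ _)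
  cases ε
  · have h1 := h S (insert i T) (by
      rw [Finset.disjoint_insert_right]; exact ⟨hiS, hST⟩)
      (fun j hj hjK => hS j hj (Set.mem_insert_of_mem _ hjK)) (by
        intro j hj
        rcases Finset.mem_insert.1 hj with rfl | hj
        · exact hi
        · exact fun hjK => hT j hj (Set.mem_insert_of_mem _ hjK))
    refine h1.mono ?_
    rw [inf_assoc, inf_principal]
    refine inf_le_inf_left _ (principal_mono.2 ?_)
    rintro n ⟨h2, h3⟩
    exact ⟨h3 i (Finset.mem_insert_self _ _), h2,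
      fun j hj => h3 j (Finset.mem_insert_of_mem hj)⟩
  · have h1 := h (insert i S) T (by
      rw [Finset.disjoint_insert_left]; exact ⟨hiT, hST⟩) (by
        intro j hj
        rcases Finset.mem_insert.1 hj with rfl | hj
        · exact hi
        · exact fun hjK => hS j hj (Set.mem_insert_of_mem _ hjK))
      (fun j hj hjK => hT j hj (Set.mem_insert_of_mem _ hjK))
    refine h1.mono ?_
    rw [inf_assoc, inf_principal]
    refine inf_le_inf_left _ (principal_mono.2 ?_)
    rintro n ⟨h2, h3⟩
    exact ⟨h2 i (Finset.mem_insert_self _ _),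
      fun j hj => h2 j (Finset.mem_insert_of_mem hj), h3⟩

/-- Kunen's lemma. -/
theorem Ind.decide {G : Filter ℕ} {K : Set I} (h : Ind G K) (α : Set ℕ) :
    ∃ (δ : Bool) (L : Finset I), Ind (G ⊓ 𝓟 (sgn α δ)) (K ∪ L) := by
  classical
  by_cases h1 : Ind (G ⊓ 𝓟 (sgn α true)) K
  · exact ⟨true, ∅, by simpa using h1⟩
  · unfold Ind at h1
    push Not at h1
    obtain ⟨S, T, hST, hS, hT, h2⟩ := h1
    refine ⟨false, S ∪ T, ?_⟩
    intro S' T' hST' hS' hT'
    have hSK : ∀ i ∈ S', i ∉ K ∧ i ∉ S ∧ i ∉ T := by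
      intro i hi
      have := hS' i hi
      simp only [Set.mem_union, Finset.coe_union, Finset.mem_coe, not_or] at this
      exact ⟨this.1, this.2.1, this.2.2⟩
    have hTK : ∀ i ∈ T', i ∉ K ∧ i ∉ S ∧ i ∉ T := by
      intro i hi
      have := hT' i hi
      simp only [Set.mem_union, Finset.coe_union, Finset.mem_coe, not_or] at this
      exact ⟨this.1, this.2.1, this.2.2⟩
    have h3 := h (S ∪ S') (T ∪ T') (by
      rw [Finset.disjoint_left]
      intro i hi hi'
      rcases Finset.mem_union.1 hi with hi | hi <;> rcases Finset.mem_union.1 hi' with hi' | hi'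
      · exact Finset.disjoint_left.1 hST hi hi'
      · exact (hTK i hi').2.1 hi
      · exact (hSK i hi).2.2 hi'
      · exact Finset.disjoint_left.1 hST' hi hi') (by
      intro i hi
      rcases Finset.mem_union.1 hi with hi | hi
      · exact hS i hi
      · exact (hSK i hi).1) (by
      intro i hi
      rcases Finset.mem_union.1 hi with hi | hi
      · exact hT i hi
      · exact (hTK i hi).1)
    have h4 : G ⊓ 𝓟 (sgn α true) ⊓ 𝓟 (cell S T) = ⊥ := h2
    rw [inf_assoc, inf_principal, Filter.inf_principal_eq_bot] at h4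
    -- the complement of α ∩ cell S T is in G
    refine h3.mono ?_
    rw [inf_assoc, inf_principal]
    refine le_inf inf_le_left ?_
    rw [le_principal_iff, mem_inf_principal]
    filter_upwards [h4] with n hn hn'
    refine ⟨?_, fun i hi => hn'.1 i (Finset.mem_union_right _ hi),
      fun i hi => hn'.2 i (Finset.mem_union_right _ hi)⟩
    show n ∈ αᶜ
    intro hα
    exact hn ⟨hα, fun i hi => hn'.1 i (Finset.mem_union_left _ hi),
      fun i hi => hn'.2 i (Finset.mem_union_left _ hi)⟩

theorem Ind.step {G : Filter ℕ} {K : Set I} (h : Ind G K) (i : I) (hi : i ∉ K) (α : Set ℕ)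
    (ε : Bool) : ∃ (δ : Bool) (L : Finset I),
      Ind (G ⊓ 𝓟 (sgn (A i) ε ∩ sgn α δ)) (K ∪ L) := by
  classical
  obtain ⟨δ, L, hL⟩ := (h.add_sgn i hi ε).decide α
  refine ⟨δ, insert i L, ?_⟩
  rw [inf_assoc, inf_principal] at hL
  refine hL.mono ?_
  intro j hj
  simp only [Set.mem_union, Set.mem_insert_iff, Finset.mem_coe, Finset.coe_insert] at hj ⊢
  tauto

end Pool.Agent.R603.PosF
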