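import Mathlib
import Pool.Agent.R603.PosF.Indep

/-!
Two ultrafilters built by transfinite recursion so that a given space is not homeomorphic to the
space of the positive sets of their join.
-/

namespace Pool.Agent.R603.PosF

open Filter Set Cardinal Topology

/-- The Cantor space. -/
abbrev C : Type := ℕ → Bool

/-- the even part -/
def ev (x : C) : Set ℕ := {n | x (2 * n) = true}

/-- the odd part -/
def od (x : C) : Set ℕ := {n | x (2 * n + 1) = true}

/-- the space of the positive sets of the join of two ultrafilters -/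
def XS (U V : Ultrafilter ℕ) : Set C := {x | ev x ∈ U ∨ od x ∈ V}

/-- a code of a partial homeomorphism: values on a dense sequence -/
abbrev Task : Type := (ℕ → C) × (ℕ → C × C)

/-- The code represents a homeomorphism. -/
def Rep (τ : Task) (X : Set C) (Z : Set (C × C)) : Prop :=
  ∃ h : X ≃ₜ Z, (∀ n, ∃ hn : τ.1 n ∈ X, (h ⟨τ.1 n, hn⟩ : C × C) = τ.2 n) ∧
    X ⊆ closure (Set.range τ.1)

/-- the limit relation -/
def Lim (τ : Task) (t : C × C) (s : C) : Prop :=
  (comap τ.2 (𝓝 t)).NeBot ∧ Tendsto τ.1 (comap τ.2 (𝓝 t)) (𝓝 s)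

theorem Rep.exists_lim {τ : Task} {X : Set C} {Z : Set (C × C)} (hR : Rep τ X Z) {t : C × C}
    (ht : t ∈ Z) : ∃ s ∈ X, Lim τ t s := by
  obtain ⟨h, h1, h2⟩ := hR
  choose hn hn' using h1
  refine ⟨h.symm ⟨t, ht⟩, (h.symm ⟨t, ht⟩).2, ?_, ?_⟩
  · rw [Filter.comap_neBot_iff]
    intro W hW
    have h3 : Tendsto (fun x : X => (h x : C × C)) (𝓝 (h.symm ⟨t, ht⟩)) (𝓝 t) := by
      have h4 := (continuous_subtype_val.comp h.continuous).tendsto (h.symm ⟨t, ht⟩)
      simpa [Function.comp_def] using h4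
    have h5 := h3 hW
    rw [Filter.mem_map, nhds_subtype_eq_comap, Filter.mem_comap] at h5
    obtain ⟨N, hN, hNW⟩ := h5
    have h6 := h2 (h.symm ⟨t, ht⟩).2
    rw [mem_closure_iff_nhds] at h6
    obtain ⟨_, hx, n, rfl⟩ := h6 N hN
    refine ⟨n, ?_⟩
    rw [← hn' n]
    exact hNW (show (⟨τ.1 n, hn n⟩ : X) ∈ _ from hx)
  · have hZ : ∀ n, τ.2 n ∈ Z := fun n => by rw [← hn' n]; exact (h _).2
    have h3 : Tendsto (fun n => (⟨τ.2 n, hZ n⟩ : Z)) (comap τ.2 (𝓝 t)) (𝓝 ⟨t, ht⟩) := by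
      rw [tendsto_subtype_rng]
      exact tendsto_comap
    have h4 := ((continuous_subtype_val.comp h.symm.continuous).tendsto (⟨t, ht⟩ : Z)).comp h3
    refine h4.congr (fun n => ?_)
    have : (⟨τ.2 n, hZ n⟩ : Z) = h ⟨τ.1 n, hn n⟩ := Subtype.ext (hn' n).symm
    simp [this]

theorem Rep.mem_iff {τ : Task} {X : Set C} {Z : Set (C × C)} (hR : Rep τ X Z) {t : C × C} {s : C}
    (hl : Lim τ t s) : t ∈ Z ↔ s ∈ X := by
  constructor
  · intro ht
    obtain ⟨s', hs', h1, h2⟩ := hR.exists_lim ht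
    have := hl.1
    rw [tendsto_nhds_unique hl.2 h2]
    exact hs'
  · intro hs
    obtain ⟨h, h1, -⟩ := hR
    choose hn hn' using h1
    have := hl.1
    have h3 : Tendsto (fun n => (⟨τ.1 n, hn n⟩ : X)) (comap τ.2 (𝓝 t)) (𝓝 ⟨s, hs⟩) := by
      rw [tendsto_subtype_rng]
      exact hl.2
    have h4 := ((continuous_subtype_val.comp h.continuous).tendsto (⟨s, hs⟩ : X)).comp h3
    have h5 : Tendsto τ.2 (comap τ.2 (𝓝 t)) (𝓝 (h ⟨s, hs⟩ : C × C)) := by
      refine h4.congr (fun n => ?_)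
      exact hn' n
    rw [tendsto_nhds_unique tendsto_comap h5]
    exact (h ⟨s, hs⟩).2

theorem exists_rec {O K : Type} [LinearOrder O] [WellFoundedLT O] (R : O → Set K → K → Prop)
    (h : ∀ o s, ∃ y, R o s y) : ∃ x : O → K, ∀ o, R o (x '' Set.Iio o) (x o) := by
  classical
  choose c hc using h
  let F : ∀ o : O, (∀ j : O, j < o → K) → K := fun o r => c o {y | ∃ j, ∃ hj : j < o, r j hj = y}
  let x : O → K := WellFounded.fix (wellFounded_lt (α := O)) F
  refine ⟨x, fun o => ?_⟩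
  have h1 : x o = F o (fun j _ => x j) := WellFounded.fix_eq _ _ _
  have h2 : {y | ∃ j, ∃ _ : j < o, x j = y} = x '' Set.Iio o := by
    ext y
    simp [Set.mem_image]
  rw [h1, ← h2]
  exact hc _ _

/-- The filter generated by sets. -/
def GG {ι : Type} (w : ι → Set ℕ) (S : Set ι) : Filter ℕ := cofinite ⊓ ⨅ j ∈ S, 𝓟 (w j)

/-- The used indices. -/
def KK {ι : Type} (L : ι → Finset I) (S : Set ι) : Set I := ⋃ j ∈ S, (L j : Set I)

theorem GG_image {ι κ : Type} (w : κ → Set ℕ) (x : ι → κ) (S : Set ι) :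
    GG w (x '' S) = GG (w ∘ x) S := by
  simp only [GG, iInf_image, Function.comp]

theorem KK_image {ι κ : Type} (L : κ → Finset I) (x : ι → κ) (S : Set ι) :
    KK L (x '' S) = KK (L ∘ x) S := by
  simp only [KK, Set.biUnion_image, Function.comp]

theorem GG_mono {ι : Type} (w : ι → Set ℕ) {S S' : Set ι} (h : S ⊆ S') : GG w S' ≤ GG w S :=
  inf_le_inf_left _ (biInf_mono h)

theorem GG_le {ι : Type} (w : ι → Set ℕ) {S : Set ι} {j : ι} (h : j ∈ S) : GG w S ≤ 𝓟 (w j) :=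
  inf_le_right.trans (iInf₂_le j h)

theorem neBot_union {O : Type} [LinearOrder O] (w : O → Set ℕ) (Q : Set O)
    (hQ : ∀ j ∈ Q, ∀ k < j, k ∈ Q) (D : Set ℕ) (hD : (cofinite ⊓ 𝓟 D).NeBot)
    (h : ∀ j ∈ Q, (GG w (Set.Iio j) ⊓ 𝓟 (w j) ⊓ 𝓟 D).NeBot) : (GG w Q ⊓ 𝓟 D).NeBot := by
  rcases Q.eq_empty_or_nonempty with rfl | hne
  · simpa [GG] using hD
  · have : Nonempty Q := hne.to_subtype
    have h1 : (⨅ j : Q, GG w (Set.Iio j.1) ⊓ 𝓟 (w j.1) ⊓ 𝓟 D).NeBot := by
      refine iInf_neBot_of_directed' ?_ (fun j => h j j.2)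
      have key : ∀ i j : O, i < j → GG w (Set.Iio j) ⊓ 𝓟 (w j) ⊓ 𝓟 D ≤
          GG w (Set.Iio i) ⊓ 𝓟 (w i) ⊓ 𝓟 D := by
        intro i j hij
        refine inf_le_inf_right _ ?_
        refine inf_le_left.trans (le_inf ?_ ?_)
        · exact GG_mono w (Set.Iio_subset_Iio hij.le)
        · exact GG_le w hij
      intro i j
      rcases lt_trichotomy i.1 j.1 with h2 | h2 | h2
      · exact ⟨j, key _ _ h2, le_rfl⟩
      · have : i = j := Subtype.ext h2
        subst this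
        exact ⟨i, le_rfl, le_rfl⟩
      · exact ⟨i, le_rfl, key _ _ h2⟩
    refine h1.mono ?_
    obtain ⟨j0⟩ := this
    refine le_inf (le_inf ?_ ?_) ?_
    · exact (iInf_le _ j0).trans (inf_le_left.trans (inf_le_left.trans inf_le_left))
    · refine le_iInf₂ (fun j hj => ?_)
      exact (iInf_le _ ⟨j, hj⟩).trans (inf_le_left.trans inf_le_right)
    · exact (iInf_le _ j0).trans inf_le_right

theorem ind_union {O : Type} [LinearOrder O] (w : O → Set ℕ) (L : O → Finset I) (Q : Set O)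
    (hQ : ∀ j ∈ Q, ∀ k < j, k ∈ Q)
    (h : ∀ j ∈ Q, Ind (GG w (Set.Iio j) ⊓ 𝓟 (w j)) (KK L (Set.Iio j) ∪ (L j : Set I))) :
    Ind (GG w Q) (KK L Q) := by
  intro S T hST hS hT
  refine neBot_union w Q hQ _ (ind_cofinite ∅ S T hST (by simp) (by simp)) ?_
  intro j hj
  have hsub : KK L (Set.Iio j) ∪ (L j : Set I) ⊆ KK L Q := by
    rintro i (hi | hi)
    · simp only [KK, Set.mem_iUnion] at hi ⊢
      obtain ⟨k, hk, hik⟩ := hi
      exact ⟨k, hQ j hj k hk, hik⟩
    · simp only [KK, Set.mem_iUnion]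
      exact ⟨j, hj, hi⟩
  exact h j hj S T hST (fun i hi hiK => hS i hi (hsub hiK)) (fun i hi hiK => hT i hi (hsub hiK))

/-- The data added at one step. -/
abbrev Y : Type := Set ℕ × Set ℕ × Finset I

section

variable (Z : Ultrafilter ℕ → Ultrafilter ℕ → Set (C × C)) (t : Set ℕ → C × C)
  (f : Bool → Bool → Bool)

/-- The task is killed. -/
def Kill (τ : Task) (y : Y) : Prop :=
  ∀ U V : Ultrafilter ℕ, y.1 ∈ U → y.2.1 ∈ V → ¬ Rep τ (XS U V) (Z U V)

open Classical in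
theorem exists_step
    (hZ : ∀ (U V : Ultrafilter ℕ) (B : Set ℕ),
      t B ∈ Z U V ↔ f (decide (B ∈ U)) (decide (B ∈ V)) = true)
    (hf : ∀ P Q : Bool → Bool, ∃ ε ε', f ε ε' ≠ (P ε || Q ε'))
    (τ : Task) (G G' : Filter ℕ) (K : Set I) (hG : Ind G K) (hG' : Ind G' K) (i : I)
    (hi : i ∉ K) : ∃ y : Y, Ind (G ⊓ 𝓟 y.1) (K ∪ y.2.2) ∧ Ind (G' ⊓ 𝓟 y.2.1) (K ∪ y.2.2) ∧
      Kill Z τ y := by
  have hdec : ∀ (U : Ultrafilter ℕ) (B : Set ℕ) (ε : Bool), sgn B ε ∈ U → decide (B ∈ U) = ε := by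
    intro U B ε h
    rw [mem_sgn_iff] at h
    cases ε
    · simpa using h
    · simpa using h
  by_cases hA : ∃ s, Lim τ (t (A i)) s
  · obtain ⟨s, hs⟩ := hA
    choose δ L hL using hG.step i hi (ev s)
    choose δ' L' hL' using hG'.step i hi (od s)
    obtain ⟨ε, ε', hε⟩ := hf δ δ'
    refine ⟨(sgn (A i) ε ∩ sgn (ev s) (δ ε), sgn (A i) ε' ∩ sgn (od s) (δ' ε'), L ε ∪ L' ε'),
      (hL ε).mono ?_, (hL' ε').mono ?_, ?_⟩
    · intro j hj
      simp only [Set.mem_union, Finset.mem_coe, Finset.coe_union] at hj ⊢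
      tauto
    · intro j hj
      simp only [Set.mem_union, Finset.mem_coe, Finset.coe_union] at hj ⊢
      tauto
    · intro U V hU hV hR
      have h1 := hR.mem_iff hs
      have e1 := hdec U _ _ (Filter.mem_of_superset hU Set.inter_subset_left)
      have e2 := hdec U _ _ (Filter.mem_of_superset hU Set.inter_subset_right)
      have e3 := hdec V _ _ (Filter.mem_of_superset hV Set.inter_subset_left)
      have e4 := hdec V _ _ (Filter.mem_of_superset hV Set.inter_subset_right)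
      rw [hZ, e1, e3] at h1
      have h2 : s ∈ XS U V ↔ (δ ε || δ' ε') = true := by
        rw [← e2, ← e4]
        simp [XS]
      rw [h2] at h1
      exact hε (Bool.eq_iff_iff.2 h1)
  · obtain ⟨ε, ε', hε⟩ := hf (fun _ => false) (fun _ => false)
    obtain ⟨δ, L, hL⟩ := hG.step i hi Set.univ ε
    obtain ⟨δ', L', hL'⟩ := hG'.step i hi Set.univ ε'
    refine ⟨(sgn (A i) ε ∩ sgn Set.univ δ, sgn (A i) ε' ∩ sgn Set.univ δ', L ∪ L'),
      hL.mono ?_, hL'.mono ?_, ?_⟩
    · intro j hj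
      simp only [Set.mem_union, Finset.mem_coe, Finset.coe_union] at hj ⊢
      tauto
    · intro j hj
      simp only [Set.mem_union, Finset.mem_coe, Finset.coe_union] at hj ⊢
      tauto
    · intro U V hU hV hR
      have e1 := hdec U _ _ (Filter.mem_of_superset hU Set.inter_subset_left)
      have e3 := hdec V _ _ (Filter.mem_of_superset hV Set.inter_subset_left)
      have h1 : t (A i) ∈ Z U V := by
        rw [hZ, e1, e3]
        simpa using hε
      obtain ⟨s, -, hs⟩ := hR.exists_lim h1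
      exact hA ⟨s, hs⟩

theorem mk_KK_lt {s : Set Y} (hs : #s < 𝔠) : #(KK (fun y : Y => y.2.2) s) < 𝔠 := by
  have h1 : #(KK (fun y : Y => y.2.2) s) ≤ #s * ℵ₀ := by
    rw [KK, Set.biUnion_eq_iUnion]
    refine (Cardinal.mk_iUnion_le _).trans ?_
    refine mul_le_mul' le_rfl ?_
    exact ciSup_le' (fun y => Cardinal.mk_le_aleph0)
  refine h1.trans_lt ?_
  exact Cardinal.mul_lt_of_lt Cardinal.aleph0_le_continuum hs Cardinal.aleph0_lt_continuum

open Classical in
theorem exists_uv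
    (hZ : ∀ (U V : Ultrafilter ℕ) (B : Set ℕ),
      t B ∈ Z U V ↔ f (decide (B ∈ U)) (decide (B ∈ V)) = true)
    (hf : ∀ P Q : Bool → Bool, ∃ ε ε', f ε ε' ≠ (P ε || Q ε')) :
    ∃ U V : Ultrafilter ℕ, (U : Filter ℕ) ≤ cofinite ∧ (V : Filter ℕ) ≤ cofinite ∧
      ∀ τ : Task, ¬ Rep τ (XS U V) (Z U V) := by
  have hT : #Task ≤ #((𝔠 : Cardinal.{0}).ord.ToType) := by
    rw [Cardinal.mk_ord_toType]
    simp
  obtain ⟨j⟩ := Cardinal.le_def _ _ |>.1 hT
  have : Nonempty Task := ⟨(fun _ _ => true, fun _ => (fun _ => true, fun _ => true))⟩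
  let σ : (𝔠 : Cardinal.{0}).ord.ToType → Task := Function.invFun j
  have hσ : Function.Surjective σ := Function.invFun_surjective j.injective
  obtain ⟨x, hx⟩ := exists_rec (O := (𝔠 : Cardinal.{0}).ord.ToType) (K := Y)
    (fun o s y => #s < 𝔠 → Ind (GG (fun y : Y => y.1) s) (KK (fun y : Y => y.2.2) s) →
      Ind (GG (fun y : Y => y.2.1) s) (KK (fun y : Y => y.2.2) s) →
      Ind (GG (fun y : Y => y.1) s ⊓ 𝓟 y.1) (KK (fun y : Y => y.2.2) s ∪ y.2.2) ∧
      Ind (GG (fun y : Y => y.2.1) s ⊓ 𝓟 y.2.1) (KK (fun y : Y => y.2.2) s ∪ y.2.2) ∧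
      Kill Z (σ o) y) (by
      intro o s
      by_cases hs : #s < 𝔠 ∧ Ind (GG (fun y : Y => y.1) s) (KK (fun y : Y => y.2.2) s) ∧
        Ind (GG (fun y : Y => y.2.1) s) (KK (fun y : Y => y.2.2) s)
      · have h1 : ∃ i : I, i ∉ KK (fun y : Y => y.2.2) s := by
          by_contra hcon
          push Not at hcon
          have h2 := mk_KK_lt hs.1
          have h3 : KK (fun y : Y => y.2.2) s = Set.univ := Set.eq_univ_of_forall hcon
          rw [h3, Cardinal.mk_univ] at h2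
          have h4 : #I = 𝔠 := by simp
          rw [h4] at h2
          exact lt_irrefl _ h2
        obtain ⟨i, hi⟩ := h1
        obtain ⟨y, hy⟩ := exists_step Z t f hZ hf (σ o) _ _ _ hs.2.1 hs.2.2 i hi
        exact ⟨y, fun _ _ _ => hy⟩
      · exact ⟨(∅, ∅, ∅), fun h1 h2 h3 => absurd ⟨h1, h2, h3⟩ hs⟩)
  have hlt : ∀ o, #(x '' Set.Iio o) < 𝔠 := by
    intro o
    refine Cardinal.mk_image_le.trans_lt ((Cardinal.mk_Iio_lt o (by simp)).trans_eq ?_)
    simp
  simp only [GG_image, KK_image, Function.comp_def] at hx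
  have hIio : ∀ o : (𝔠 : Cardinal.{0}).ord.ToType, ∀ j ∈ Set.Iio o, ∀ k < j, k ∈ Set.Iio o :=
    fun o j hj k hk => hk.trans hj
  have hmain : ∀ o, Ind (GG (fun j => (x j).1) (Set.Iio o) ⊓ 𝓟 (x o).1)
        (KK (fun j => (x j).2.2) (Set.Iio o) ∪ (x o).2.2) ∧
      Ind (GG (fun j => (x j).2.1) (Set.Iio o) ⊓ 𝓟 (x o).2.1)
        (KK (fun j => (x j).2.2) (Set.Iio o) ∪ (x o).2.2) ∧ Kill Z (σ o) (x o) := by
    intro o
    induction o using WellFoundedLT.induction with
    | ind o ih =>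
      refine hx o (hlt o) ?_ ?_
      · exact ind_union _ _ _ (hIio o) (fun j hj => (ih j hj).1)
      · exact ind_union _ _ _ (hIio o) (fun j hj => (ih j hj).2.1)
  have hU : (GG (fun j => (x j).1) Set.univ).NeBot := by
    have := neBot_union (fun j => (x j).1) Set.univ (fun _ _ _ _ => trivial) Set.univ
      (by simpa using (inferInstance : (cofinite : Filter ℕ).NeBot)) (fun o _ => by
        have h1 := (hmain o).1 ∅ ∅ (by simp) (by simp) (by simp)
        refine h1.mono ?_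
        exact inf_le_inf_left _ (principal_mono.2 (Set.subset_univ _)))
    simpa using this
  have hV : (GG (fun j => (x j).2.1) Set.univ).NeBot := by
    have := neBot_union (fun j => (x j).2.1) Set.univ (fun _ _ _ _ => trivial) Set.univ
      (by simpa using (inferInstance : (cofinite : Filter ℕ).NeBot)) (fun o _ => by
        have h1 := (hmain o).2.1 ∅ ∅ (by simp) (by simp) (by simp)
        refine h1.mono ?_
        exact inf_le_inf_left _ (principal_mono.2 (Set.subset_univ _)))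
    simpa using this
  refine ⟨Ultrafilter.of _, Ultrafilter.of _, (Ultrafilter.of_le (GG (fun j => (x j).1) Set.univ)).trans
    inf_le_left, (Ultrafilter.of_le (GG (fun j => (x j).2.1) Set.univ)).trans inf_le_left, ?_⟩
  intro τ
  obtain ⟨o, rfl⟩ := hσ τ
  refine (hmain o).2.2 _ _ ?_ ?_
  · exact ((Ultrafilter.of_le _).trans (GG_le (fun j => (x j).1) (Set.mem_univ o)))
      (mem_principal_self _)
  · exact ((Ultrafilter.of_le _).trans (GG_le (fun j => (x j).2.1) (Set.mem_univ o)))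
      (mem_principal_self _)

end

end Pool.Agent.R603.PosF
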