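import Mathlib
import Pool.Agent.R603.PosF.Defs
import Pool.Agent.R603.PosF.Rec

/-!
The join of two ultrafilters on the even and the odd numbers.
-/

namespace Pool.Agent.R603.PosF

open Filter Set Cardinal Topology

/-- The join. -/
def join (U V : Ultrafilter ℕ) : Filter ℕ :=
  (U : Filter ℕ).map (fun n => 2 * n) ⊔ (V : Filter ℕ).map (fun n => 2 * n + 1)

theorem mem_join {U V : Ultrafilter ℕ} {B : Set ℕ} :
    B ∈ join U V ↔ {n | 2 * n ∈ B} ∈ U ∧ {n | 2 * n + 1 ∈ B} ∈ V := by
  rw [join, Filter.mem_sup, Filter.mem_map, Filter.mem_map]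
  rfl

theorem join_filter {U V : Ultrafilter ℕ} (hU : (U : Filter ℕ) ≤ cofinite)
    (hV : (V : Filter ℕ) ≤ cofinite) : IsFilterOnOmega (join U V) := by
  refine ⟨⟨fun h => ?_⟩, sup_le ?_ ?_⟩
  · have : (∅ : Set ℕ) ∈ join U V := by rw [h]; exact Filter.mem_bot
    rw [mem_join] at this
    exact Ultrafilter.empty_notMem this.1
  · have h1 : Function.Injective (fun n : ℕ => 2 * n) := fun a b h => by simpa using h
    exact (Filter.map_mono hU).trans h1.tendsto_cofinite
  · have h1 : Function.Injective (fun n : ℕ => 2 * n + 1) := fun a b h => by simpa using h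
    exact (Filter.map_mono hV).trans h1.tendsto_cofinite

theorem mem_carrier_join {U V : Ultrafilter ℕ} {x : C} :
    x ∈ carrier (join U V) ↔ ev x ∈ U ∧ od x ∈ V := mem_join

theorem pos_join (U V : Ultrafilter ℕ) : pos (join U V) = XS U V := by
  ext x
  constructor
  · intro h
    by_contra hcon
    simp only [XS, Set.mem_ofPred_eq, not_or] at hcon
    have h1 : {n | x n = true}ᶜ ∈ join U V := by
      rw [mem_join]
      exact ⟨Ultrafilter.compl_mem_iff_notMem.2 hcon.1, Ultrafilter.compl_mem_iff_notMem.2 hcon.2⟩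
    obtain ⟨n, hn, hn'⟩ := h _ h1
    exact hn' hn
  · rintro (h | h) B hB
    · rw [mem_join] at hB
      obtain ⟨n, hn, hn'⟩ := Ultrafilter.nonempty_of_mem (Filter.inter_mem h hB.1)
      exact ⟨2 * n, hn, hn'⟩
    · rw [mem_join] at hB
      obtain ⟨n, hn, hn'⟩ := Ultrafilter.nonempty_of_mem (Filter.inter_mem h hB.2)
      exact ⟨2 * n + 1, hn, hn'⟩

/-- flipping coordinates -/
def flip (m : ℕ → Bool) : C ≃ₜ C where
  toFun x n := xor (m n) (x n)
  invFun x n := xor (m n) (x n)
  left_inv x := by funext n; simp
  right_inv x := by funext n; simp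
  continuous_toFun := by
    refine continuous_pi (fun n => ?_)
    exact (continuous_of_discreteTopology (f := fun b : Bool => xor (m n) b)).comp
      (continuous_apply n)
  continuous_invFun := by
    refine continuous_pi (fun n => ?_)
    exact (continuous_of_discreteTopology (f := fun b : Bool => xor (m n) b)).comp
      (continuous_apply n)

theorem join_nonMeager (U V : Ultrafilter ℕ) : NonMeager (join U V) := by
  intro hM
  have hfl : ∀ m : ℕ → Bool, IsMeagre (flip m ⁻¹' carrier (join U V)) := fun m =>
    hM.preimage_of_isOpenMap (flip m).continuous (flip m).isOpenMap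
  let b : Bool → Bool → ℕ → Bool := fun p q n => if n % 2 = 0 then p else q
  have hcov : (Set.univ : Set C) ⊆ (flip (b false false) ⁻¹' carrier (join U V)) ∪
      (flip (b false true) ⁻¹' carrier (join U V)) ∪
      ((flip (b true false) ⁻¹' carrier (join U V)) ∪
      (flip (b true true) ⁻¹' carrier (join U V))) := by
    intro x _
    have key : ∀ p q : Bool, (ev x ∈ U ↔ p = false) → (od x ∈ V ↔ q = false) →
        x ∈ flip (b p q) ⁻¹' carrier (join U V) := by
      intro p q hp hq
      rw [Set.mem_preimage, mem_carrier_join]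
      have h1 : ev (flip (b p q) x) = if p then (ev x)ᶜ else ev x := by
        ext n
        cases p <;> simp [ev, flip, b]
      have h2 : od (flip (b p q) x) = if q then (od x)ᶜ else od x := by
        ext n
        cases q <;> simp [od, flip, b]
      rw [h1, h2]
      constructor
      · cases p
        · simpa using hp
        · simpa [Ultrafilter.compl_mem_iff_notMem] using hp
      · cases q
        · simpa using hq
        · simpa [Ultrafilter.compl_mem_iff_notMem] using hq
    by_cases h1 : ev x ∈ U <;> by_cases h2 : od x ∈ V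
    · exact Or.inl (Or.inl (key false false (by simpa using h1) (by simpa using h2)))
    · exact Or.inl (Or.inr (key false true (by simpa using h1) (by simpa using h2)))
    · exact Or.inr (Or.inl (key true false (by simpa using h1) (by simpa using h2)))
    · exact Or.inr (Or.inr (key true true (by simpa using h1) (by simpa using h2)))
  have hM' : IsMeagre (Set.univ : Set C) :=
    IsMeagre.mono hcov (((hfl _).union (hfl _)).union ((hfl _).union (hfl _)))
  exact not_isMeagre_of_isOpen isOpen_univ Set.univ_nonempty hM'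

/-- Every homeomorphism from a nonempty subspace of the Cantor space is represented by a task. -/
theorem exists_rep {X : Set C} {Z : Set (C × C)} (hX : X.Nonempty) (h : X ≃ₜ Z) :
    ∃ τ : Task, Rep τ X Z := by
  have : Nonempty X := hX.to_subtype
  obtain ⟨d, hd⟩ := TopologicalSpace.exists_dense_seq X
  refine ⟨(fun n => (d n : C), fun n => (h (d n) : C × C)), h, fun n => ⟨(d n).2, rfl⟩, ?_⟩
  intro x hx
  have h1 : (⟨x, hx⟩ : X) ∈ closure (Set.range d) := hd _
  have h2 := (continuous_subtype_val (p := fun y => y ∈ X)).range_subset_closure_image_dense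
    (s := Set.range d) hd
  have h3 : x ∈ Set.range (Subtype.val : X → C) := ⟨⟨x, hx⟩, rfl⟩
  have h4 := h2 h3
  rw [← Set.range_comp] at h4
  exact h4

theorem xs_nonempty (U V : Ultrafilter ℕ) : (XS U V).Nonempty :=
  ⟨fun _ => true, Or.inl (by
    have : ev (fun _ => true) = Set.univ := by ext; simp [ev]
    rw [this]; exact Filter.univ_mem)⟩

/-- the interleaving of two sets -/
noncomputable def mix (a b : Set ℕ) : C := by
  classical
  exact fun n => if n % 2 = 0 then decide (n / 2 ∈ a) else decide (n / 2 ∈ b)

theorem ev_mix (a b : Set ℕ) : ev (mix a b) = a := by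
  classical
  ext n
  simp [ev, mix]

theorem od_mix (a b : Set ℕ) : od (mix a b) = b := by
  classical
  ext n
  have h4 : (2 * n + 1) / 2 = n := by omega
  simp [od, mix, h4]

theorem exists_square : ∃ F : Filter ℕ, IsFilterOnOmega F ∧ NonMeager F ∧
    IsEmpty (pos F ≃ₜ pos F × pos F) := by
  classical
  obtain ⟨U, V, hU, hV, hR⟩ := exists_uv (fun U V => XS U V ×ˢ XS U V)
    (fun B => (mix B Bᶜ, mix Bᶜ B)) (fun ε ε' => ε == ε') (by
      intro U V B
      simp only [XS, Set.mem_prod, Set.mem_ofPred_eq, ev_mix, od_mix,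
        Ultrafilter.compl_mem_iff_notMem]
      by_cases h1 : B ∈ U <;> by_cases h2 : B ∈ V <;> simp [h1, h2]) (by decide)
  refine ⟨join U V, join_filter hU hV, join_nonMeager U V, ⟨fun h => ?_⟩⟩
  rw [pos_join] at h
  let h' : XS U V ≃ₜ (XS U V ×ˢ XS U V : Set (C × C)) :=
    h.trans (Homeomorph.Set.prod (XS U V) (XS U V)).symm
  obtain ⟨τ, hτ⟩ := exists_rep (xs_nonempty U V) h'
  exact hR τ hτ

theorem exists_product : ∃ F : Filter ℕ, IsFilterOnOmega F ∧ NonMeager F ∧
    IsEmpty (carrier F × pos F ≃ₜ pos F) := by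
  classical
  obtain ⟨U, V, hU, hV, hR⟩ := exists_uv (fun U V => carrier (join U V) ×ˢ XS U V)
    (fun B => (mix B B, fun _ => true)) (fun ε ε' => ε && ε') (by
      intro U V B
      have h3 : ev (fun _ => true) = Set.univ := by ext; simp [ev]
      simp only [XS, Set.mem_prod, Set.mem_ofPred_eq, mem_carrier_join, ev_mix, od_mix, h3]
      simp only [Bool.and_eq_true, decide_eq_true_eq, and_iff_left_iff_imp]
      exact fun _ => Or.inl Filter.univ_mem) (by decide)
  refine ⟨join U V, join_filter hU hV, join_nonMeager U V, ⟨fun h => ?_⟩⟩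
  rw [pos_join] at h
  let h' : XS U V ≃ₜ (carrier (join U V) ×ˢ XS U V : Set (C × C)) :=
    h.symm.trans (Homeomorph.Set.prod (carrier (join U V)) (XS U V)).symm
  obtain ⟨τ, hτ⟩ := exists_rep (xs_nonempty U V) h'
  exact hR τ hτ

end Pool.Agent.R603.PosF
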